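import Pool.Agent.helper60.DA.SpecV

/-!
# Row dv:RD (MP_fb2c2a_nt)
-/

set_option autoImplicit false

namespace Pool.Agent.helper60.DA

open Polynomial Finset Pool.Agent.helper60.DK

private lemma RD_cast {p : ℕ} [hp : Fact p.Prime] {k : ℕ} (h0 : 0 < k) (hk : k < p) :
    ((k : ZMod p)) ≠ 0 := by
  intro h
  rw [ZMod.natCast_eq_zero_iff] at h
  exact absurd (Nat.le_of_dvd h0 h) (by omega)

private lemma RD_ne {p : ℕ} [hp : Fact p.Prime] {k : ℕ} (h0 : 0 < k) (hk : k < p) :
    (k : (ZMod p)[X]) ≠ 0 := by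
  intro h
  have h1 : (C (k : ZMod p) : (ZMod p)[X]) = 0 := by
    rw [map_natCast]
    exact h
  rw [C_eq_zero] at h1
  exact RD_cast h0 hk h1

private lemma RD_rec (p : ℕ) [hp : Fact p.Prime] (k : ℕ) (hk : k + 2 < p) :
    ((k : (ZMod p)[X]) + 2) * Rn p (k + 2) =
      (2 * (k : (ZMod p)[X]) + 3) * (1 + 2 * X) * Rn p (k + 1) -
        ((k : (ZMod p)[X]) + 1) * Rn p k := by
  have h2 : ((k : ZMod p) + 2) ≠ 0 := by
    have := RD_cast (p := p) (k := k + 2) (by omega) hk
    push_cast at this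
    exact this
  have e1 : ((k : (ZMod p)[X]) + 2) = C ((k : ZMod p) + 2) := by
    rw [C_add, map_natCast]
    rfl
  have e2 : (C (2 * (k : ZMod p) + 3) : (ZMod p)[X]) = 2 * (k : (ZMod p)[X]) + 3 := by
    rw [C_add, C_mul, map_natCast]
    rfl
  have e3 : (C ((k : ZMod p) + 1) : (ZMod p)[X]) = (k : (ZMod p)[X]) + 1 := by
    rw [C_add, map_natCast, C_1]
  have e4 : Rn p (k + 2) = C (((k : ZMod p) + 2)⁻¹) * (C (2 * (k : ZMod p) + 3) * (1 + 2 * X) *
      Rn p (k + 1) - C ((k : ZMod p) + 1) * Rn p k) := by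
    rw [Rn]
  rw [e4, e1, ← mul_assoc, ← C_mul, mul_inv_cancel₀ h2, C_1, one_mul, e2, e3]

private lemma RD_map (p : ℕ) (n : ℕ) :
    2 * X * (1 + X) * derivative (red p (Dz n))
      = ((n : (ZMod p)[X]) + 1) * (red p (Dz (n + 1)) - (1 + 2 * X) * red p (Dz n)) := by
  have h := congrArg (Polynomial.map (Int.castRingHom (ZMod p))) (rel_two n)
  simp only [Polynomial.map_mul, Polynomial.map_add, Polynomial.map_sub, Polynomial.map_X,
    Polynomial.map_one, Polynomial.map_natCast, Polynomial.map_ofNat, ← Polynomial.derivative_map]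
    at h
  exact h

private lemma RD_map' (p : ℕ) (n : ℕ) :
    2 * X * (1 + X) * derivative (red p (Dz (n + 1)))
      = ((n : (ZMod p)[X]) + 1) * ((1 + 2 * X) * red p (Dz (n + 1)) - red p (Dz n)) := by
  have h := congrArg (Polynomial.map (Int.castRingHom (ZMod p))) (rel_one n)
  simp only [Polynomial.map_mul, Polynomial.map_add, Polynomial.map_sub, Polynomial.map_X,
    Polynomial.map_one, Polynomial.map_natCast, Polynomial.map_ofNat, ← Polynomial.derivative_map]
    at h
  exact h

private lemma RD_recD (p : ℕ) (k : ℕ) :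
    ((k : (ZMod p)[X]) + 2) * red p (Dz (k + 2)) =
      (2 * (k : (ZMod p)[X]) + 3) * (1 + 2 * X) * red p (Dz (k + 1)) -
        ((k : (ZMod p)[X]) + 1) * red p (Dz k) := by
  have h1 := RD_map p (k + 1)
  have h2 := RD_map' p k
  push_cast at h1
  linear_combination h2 - h1

private lemma RD_D0 (p : ℕ) : red p (Dz 0) = 1 := by
  unfold Dz
  simp

private lemma RD_D1 (p : ℕ) : red p (Dz 1) = 1 + 2 * X := by
  unfold Dz
  simp [Finset.sum_range_succ]

private lemma RD_wr (p : ℕ) [hp : Fact p.Prime] (m : ℕ) (hm : m + 1 < p) :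
    ((m : (ZMod p)[X]) + 1) * (red p (Dz (m + 1)) * Rn p m - red p (Dz m) * Rn p (m + 1)) = -2 := by
  induction m with
  | zero =>
    rw [RD_D0, RD_D1]
    have e0 : Rn p 0 = 0 := by rw [Rn]
    have e1 : Rn p (0 + 1) = 2 := by rw [Rn]
    rw [e0, e1]
    push_cast
    ring
  | succ m ih =>
    have h1 := ih (by omega)
    have h2 := RD_rec p m hm
    have h3 := RD_recD p m
    push_cast
    linear_combination h1 + h3 * Rn p (m + 1) - h2 * red p (Dz (m + 1))

private lemma RD_AB (p : ℕ) [hp : Fact p.Prime] (m : ℕ) (hm : m + 1 < p) :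
    2 * X * (1 + X) * derivative (Rn p (m + 1)) =
      ((m : (ZMod p)[X]) + 1) * ((1 + 2 * X) * Rn p (m + 1) - Rn p m) - 2 * red p (Dz (m + 1)) ∧
    2 * X * (1 + X) * derivative (Rn p m) =
      ((m : (ZMod p)[X]) + 1) * (Rn p (m + 1) - (1 + 2 * X) * Rn p m) - 2 * red p (Dz m) := by
  induction m with
  | zero =>
    rw [RD_D0, RD_D1]
    have e0 : Rn p 0 = 0 := by rw [Rn]
    have e1 : Rn p (0 + 1) = 2 := by rw [Rn]
    have e2 : derivative (2 : (ZMod p)[X]) = 0 := by
      have : (2 : (ZMod p)[X]) = C 2 := rfl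
      rw [this, derivative_C]
    rw [e0, e1, e2, derivative_zero]
    constructor
    · push_cast
      ring
    · push_cast
      ring
  | succ m ih =>
    obtain ⟨hA, hB⟩ := ih (by omega)
    have h2 := RD_rec p m hm
    have h3 := RD_recD p m
    have hne : ((m : (ZMod p)[X]) + 2) ≠ 0 := by
      have := RD_ne (p := p) (k := m + 2) (by omega) hm
      push_cast at this
      exact this
    constructor
    · apply mul_left_cancel₀ hne
      have h4 := congrArg derivative h2
      simp only [derivative_mul, derivative_add, derivative_sub, derivative_natCast,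
        derivative_one, derivative_X, derivative_ofNat, zero_mul, mul_zero, add_zero, zero_add,
        mul_one] at h4
      push_cast
      linear_combination (2 * X * (1 + X)) * h4 + (2 * (m : (ZMod p)[X]) + 3) * (1 + 2 * X) * hA -
        ((m : (ZMod p)[X]) + 1) * hB - ((m : (ZMod p)[X]) + 2) * (1 + 2 * X) * h2 + 2 * h3
    · push_cast
      linear_combination hA - h2

/-- **RD**. -/
theorem RD : RD_stmt := by
  intro p hp h5 m hm1 hm
  obtain ⟨n, rfl⟩ : ∃ n : ℕ, m = n + 1 := ⟨m - 1, by omega⟩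
  have hA := (RD_AB p n hm).1
  have hW := RD_wr p n hm
  have hD := RD_map' p n
  have h2 : (2 : (ZMod p)[X]) ≠ 0 := by
    have := RD_ne (p := p) (k := 2) (by omega) (by omega)
    exact_mod_cast this
  apply mul_left_cancel₀ h2
  linear_combination hA * red p (Dz (n + 1)) - Rn p (n + 1) * hD - hW

end Pool.Agent.helper60.DA
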